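import Pool.Agent.V5helper50.RS.Stm

/-!
# Project RS: common lemmas for the upper and the lower bound
-/

set_option autoImplicit false

open Finset MeasureTheory ProbabilityTheory

namespace Pool.Agent.V5helper37.RS

open Pool.Agent.V5helper50.RS

theorem R_congr {k Q : ℕ} {t t' : ℕ → ℕ} {n : ℕ} (h : ∀ x < n, t x = t' x) (j u : ℕ) :
    R k Q t j n u = R k Q t' j n u := by
  unfold R
  congr 1
  apply Finset.filter_congr
  intro x hx
  have h1 : ∀ i, a k Q t (x i) = a k Q t' (x i) := by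
    intro i
    have := Fintype.mem_piFinset.mp hx i
    unfold a
    rw [h _ (mem_range.mp this)]
  simp only [h1]

theorem Rl_congr {k Q : ℕ} {t t' : ℕ → ℕ} {e : ℕ} (h : ∀ x ≤ 2 * e, t x = t' x) (j u : ℕ) :
    Rl k Q t e j u = Rl k Q t' e j u := by
  unfold Rl
  congr 1
  apply Finset.filter_congr
  intro x hx
  have h1 : ∀ i, a k Q t (x i) = a k Q t' (x i) := by
    intro i
    have := Fintype.mem_piFinset.mp hx i
    unfold a
    rw [h _ (mem_Ioc.mp this).2]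
  simp only [h1]

theorem F_congr {k Q : ℕ} {t t' : ℕ → ℕ} {x : ℕ} (h : ∀ y ≤ x, t y = t' y) (j u : ℕ) :
    F k Q j u x t = F k Q j u x t' := by
  unfold F
  have h1 : a k Q t x = a k Q t' x := by unfold a; rw [h x le_rfl]
  rw [h1]
  apply Finset.sum_congr rfl
  intro i _
  rw [R_congr (fun y hy => h y hy.le)]

theorem M_pos {k Q : ℕ} {t : ℕ → ℕ} {j n u : ℕ} (hQ : 1 ≤ Q) (h : 0 < R k Q t j n u) :
    0 < M k Q j u := by
  unfold R at h
  obtain ⟨x, hx⟩ := Finset.card_pos.mp h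
  rw [mem_filter] at hx
  unfold M
  apply Finset.card_pos.mpr
  refine ⟨fun i => x i % Q, ?_⟩
  rw [mem_filter, Fintype.mem_piFinset]
  refine ⟨fun i => mem_range.mpr (Nat.mod_lt _ hQ), ?_⟩
  rw [← hx.2, Finset.sum_nat_mod, Finset.sum_nat_mod (f := fun i => a k Q t (x i))]
  congr 1
  apply Finset.sum_congr rfl
  intro i _
  unfold a
  rw [Nat.add_mul_mod_self_left, ← Nat.pow_mod]

theorem loglin (m : ℕ) (K ε : ℝ) (hε : 0 < ε) :
    ∃ L₀ : ℕ, 1 ≤ L₀ ∧ ∀ L : ℕ, L₀ ≤ L → K * (1 + Real.log L) ^ m ≤ ε * L := by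
  have h1 : (fun x : ℝ => Real.log x ^ m) =o[Filter.atTop] id := Real.isLittleO_pow_log_id_atTop
  have hK : 0 < ε / ((|K| + 1) * Real.exp 1) := by positivity
  have h2 := h1.bound hK
  rw [Filter.eventually_atTop] at h2
  obtain ⟨X, hX⟩ := h2
  obtain ⟨L₀, hL₀⟩ := exists_nat_ge X
  refine ⟨L₀ + 1, by omega, fun L hL => ?_⟩
  have hLn : (L₀ : ℝ) + 1 ≤ L := by exact_mod_cast hL
  have hL0 : (0 : ℝ) ≤ L₀ := Nat.cast_nonneg _
  have hL1 : (1 : ℝ) ≤ L := by linarith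
  have he : (1 : ℝ) ≤ Real.exp 1 := by
    have := Real.add_one_le_exp 1
    linarith
  have h3 := hX (Real.exp 1 * L) (by
    have : 1 * (L : ℝ) ≤ Real.exp 1 * L := mul_le_mul_of_nonneg_right he (by linarith)
    linarith)
  rw [Real.log_mul (Real.exp_pos 1).ne' (by linarith), Real.log_exp] at h3
  have hlog : 0 ≤ Real.log L := Real.log_nonneg hL1
  have h4 : (1 + Real.log L) ^ m ≤ ε / ((|K| + 1) * Real.exp 1) * (Real.exp 1 * L) := by
    have e1 : ‖(1 + Real.log L) ^ m‖ = (1 + Real.log L) ^ m :=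
      Real.norm_of_nonneg (by positivity)
    have e2 : ‖id (Real.exp 1 * (L : ℝ))‖ = Real.exp 1 * L := by
      show ‖Real.exp 1 * (L : ℝ)‖ = Real.exp 1 * L
      exact Real.norm_of_nonneg (by positivity)
    rw [e1, e2] at h3
    exact h3
  have h5 : ε / ((|K| + 1) * Real.exp 1) * (Real.exp 1 * L) = ε / (|K| + 1) * L := by
    field_simp
  rw [h5] at h4
  have h6 : 0 ≤ (1 + Real.log L) ^ m := by positivity
  calc K * (1 + Real.log L) ^ m ≤ (|K| + 1) * (1 + Real.log L) ^ m :=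
        mul_le_mul_of_nonneg_right (by linarith [le_abs_self K]) h6
    _ ≤ (|K| + 1) * (ε / (|K| + 1) * L) := mul_le_mul_of_nonneg_left h4 (by positivity)
    _ = ε * L := by field_simp

theorem expb (k L : ℕ) (hL : 1 ≤ L) (lam : ℝ) (h : (2 * k + 2) * (1 + Real.log L) ≤ lam) :
    ((L : ℝ) + 1) ^ k * Real.exp (-lam) ≤ 1 / (L : ℝ) ^ 2 := by
  have hL1 : (1 : ℝ) ≤ L := by exact_mod_cast hL
  have hlog : 0 ≤ Real.log L := Real.log_nonneg hL1
  have hk : (0 : ℝ) ≤ k := Nat.cast_nonneg _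
  have h1 : (k : ℝ) * 1 + ((k + 2 : ℕ) : ℝ) * Real.log L ≤ lam := by
    push_cast
    nlinarith
  have h2 := Real.exp_le_exp.mpr h1
  rw [Real.exp_add, Real.exp_nat_mul, Real.exp_nat_mul, Real.exp_log (by linarith)] at h2
  have he : (2 : ℝ) ≤ Real.exp 1 := by
    have := Real.add_one_le_exp 1
    linarith
  have h3 : (2 : ℝ) ^ k ≤ Real.exp 1 ^ k := pow_le_pow_left₀ (by norm_num) he k
  have h4 : ((L : ℝ) + 1) ^ k * (L : ℝ) ^ 2 ≤ Real.exp lam := by
    calc ((L : ℝ) + 1) ^ k * (L : ℝ) ^ 2 ≤ (2 * (L : ℝ)) ^ k * (L : ℝ) ^ 2 := by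
          apply mul_le_mul_of_nonneg_right _ (by positivity)
          exact pow_le_pow_left₀ (by positivity) (by linarith) k
      _ = 2 ^ k * (L : ℝ) ^ (k + 2) := by rw [mul_pow, pow_add]; ring
      _ ≤ Real.exp 1 ^ k * (L : ℝ) ^ (k + 2) := mul_le_mul_of_nonneg_right h3 (by positivity)
      _ ≤ _ := h2
  rw [Real.exp_neg, ← div_eq_mul_inv, div_le_div_iff₀ (Real.exp_pos _) (by positivity), one_mul]
  exact h4

theorem Bd_le {k j d' : ℕ} (hkd : k ≤ d') (hj : j ≤ d') {C : ℝ} (hC : 0 ≤ C) {L : ℕ} (hL : 1 ≤ L) :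
    Bd k C j L ≤ C * (1 + Real.log L) ^ d' * ((L : ℝ) ^ d' / (L : ℝ) ^ k) := by
  have hL1 : (1 : ℝ) ≤ L := by exact_mod_cast hL
  have hL0 : (0 : ℝ) < L := by linarith
  have hlog : 0 ≤ Real.log L := Real.log_nonneg hL1
  unfold Bd
  have h1 : (1 + Real.log L) ^ j ≤ (1 + Real.log L) ^ d' := pow_le_pow_right₀ (by linarith) hj
  have h2 : max 1 ((L : ℝ) ^ j / (L : ℝ) ^ k) ≤ (L : ℝ) ^ d' / (L : ℝ) ^ k := by
    apply max_le
    · rw [one_le_div (by positivity)]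
      exact pow_le_pow_right₀ hL1 hkd
    · apply div_le_div_of_nonneg_right _ (by positivity)
      exact pow_le_pow_right₀ hL1 hj
  exact mul_le_mul (mul_le_mul_of_nonneg_left h1 hC) h2 (le_trans zero_le_one (le_max_left _ _))
    (by positivity)

end Pool.Agent.V5helper37.RS
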