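import Pool.Agent.V5helper37.RS.Com

/-!
# Project RS: the lower bound
-/

set_option autoImplicit false

open Finset MeasureTheory ProbabilityTheory

namespace Pool.Agent.V5helper37.RS

open Pool.Agent.V5helper50.RS

theorem Rl_le {k Q : ℕ} (t : ℕ → ℕ) {e n : ℕ} (h : 2 * e < n) (j u : ℕ) :
    Rl k Q t e j u ≤ R k Q t j n u := by
  unfold Rl R
  apply Finset.card_le_card
  apply Finset.filter_subset_filter
  intro x hx
  rw [Fintype.mem_piFinset] at hx ⊢
  intro i
  have := mem_Ioc.mp (hx i)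
  rw [mem_range]
  omega

/-- splitting off the last coordinate -/
theorem sum_Rl_le {k Q : ℕ} (t : ℕ → ℕ) {e n₀ n : ℕ} (h : 2 * e < n₀) (hn : n₀ ≤ n) (j u : ℕ) :
    ∑ x ∈ Ico n₀ n, (if a k Q t x ≤ u then Rl k Q t e j (u - a k Q t x) else 0) ≤
      R k Q t (j + 1) n u := by
  classical
  have h1 : ∀ x ∈ Ico n₀ n, (if a k Q t x ≤ u then Rl k Q t e j (u - a k Q t x) else 0) =
      (((Fintype.piFinset fun _ : Fin j => Ioc e (2 * e)).filter
        (fun y => a k Q t x + ∑ i, a k Q t (y i) = u))).card := by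
    intro x _
    split_ifs with hx
    · unfold Rl
      congr 1
      apply Finset.filter_congr
      intro y _
      constructor
      · intro hy; omega
      · intro hy; omega
    · symm
      rw [Finset.card_eq_zero, Finset.filter_eq_empty_iff]
      intro y _ hy
      omega
  rw [Finset.sum_congr rfl h1, ← Finset.card_sigma]
  unfold R
  apply Finset.card_le_card_of_injOn (fun p : (_ : ℕ) × (Fin j → ℕ) => (Fin.cons p.1 p.2 : Fin (j + 1) → ℕ))
  · rintro ⟨x, y⟩ hp
    simp only [Finset.coe_sigma, Set.mem_sigma_iff, Finset.mem_coe, mem_Ico, mem_filter,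
      Fintype.mem_piFinset, mem_Ioc] at hp
    simp only [Finset.coe_filter, Set.mem_setOf_eq, Fintype.mem_piFinset, mem_range]
    refine ⟨?_, ?_⟩
    · intro i
      refine Fin.cases ?_ (fun i => ?_) i
      · simpa using hp.1.2
      · have := hp.2.1 i
        simp only [Fin.cons_succ]
        omega
    · rw [Fin.sum_univ_succ]
      simpa using hp.2.2
  · rintro ⟨x, y⟩ _ ⟨x', y'⟩ _ hh
    have h2 : (Fin.cons x y : Fin (j + 1) → ℕ) = Fin.cons x' y' := hh
    have h3 := Fin.cons_injective2 h2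
    obtain ⟨rfl, rfl⟩ := h3
    rfl

theorem t_LOW : S_LOW := by
  intro hCHL hLOWM hBND k d hk hd
  obtain ⟨d', rfl⟩ : ∃ d', d = d' + 1 := ⟨d - 1, by omega⟩
  have hkd : k ≤ d' := by omega
  obtain ⟨c, hc, hLOWM⟩ := hLOWM k (d' + 1) hk hd
  refine ⟨c / 2, by positivity, ?_⟩
  intro Q hQ
  obtain ⟨L1, hL1, hLOWM⟩ := hLOWM Q hQ
  obtain ⟨C₁, hC₁, hBND⟩ := hBND k Q d' hk hQ
  obtain ⟨L2, hL2, hlogl⟩ := loglin (d' + 1)
    ((2 * k + 2) * (8 * C₁ * (Q : ℝ) ^ d')) c hc
  refine ⟨C₁ + 1, max L1 L2, le_trans hL1 (le_max_left _ _), ?_⟩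
  intro L hL
  have hLL1 : L1 ≤ L := (le_max_left _ _).trans hL
  have hLL2 : L2 ≤ L := (le_max_right _ _).trans hL
  have hL1' : 1 ≤ L := hL1.trans hLL1
  have hLr : (1 : ℝ) ≤ L := by exact_mod_cast hL1'
  have hL0 : (0 : ℝ) < L := by linarith
  have hlog : 0 ≤ Real.log L := Real.log_nonneg hLr
  have hQr : (1 : ℝ) ≤ Q := by exact_mod_cast hQ
  have hQ0 : (0 : ℝ) < (Q : ℝ) ^ d' := by positivity
  have hT : ∀ x, 0 < Tk k x := Tk_pos k
  simp only [Nat.add_sub_cancel] at hLOWM ⊢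
  set e : ℕ := L / (8 * (d' + 1)) with he
  set n₀ : ℕ := L / 2 + 1 with hn₀
  have hen : 2 * e < n₀ := by
    have h1 : e ≤ L / 8 := by
      rw [he]
      exact Nat.div_le_div_left (by omega) (by norm_num)
    omega
  have hn₀n : n₀ ≤ L + 1 := by omega
  set Y : ℝ := (L : ℝ) ^ d' / (L : ℝ) ^ k with hY
  have hY0 : 0 < Y := by positivity
  set B : ℝ := C₁ * (1 + Real.log L) ^ d' * Y with hB
  have hlog1 : 0 < 1 + Real.log L := by linarith
  have hB0 : 0 < B := by positivity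
  set lam : ℝ := (2 * k + 2) * (1 + Real.log L) with hlam
  have hX : (L : ℝ) ^ (d' + 1) / (L : ℝ) ^ k = L * Y := by rw [hY, pow_succ]; ring
  rw [hX]
  -- the inequality for large `L`
  have hkey : lam ≤ c * (L * Y) * (1 / (Q : ℝ) ^ d') / (8 * B) := by
    have h1 := hlogl L hLL2
    rw [le_div_iff₀ (by positivity)]
    have h2 : c * (L * Y) * (1 / (Q : ℝ) ^ d') = (c * L * Y) / (Q : ℝ) ^ d' := by ring
    rw [h2, le_div_iff₀ hQ0]
    calc lam * (8 * B) * (Q : ℝ) ^ d' =
        (2 * k + 2) * (8 * C₁ * (Q : ℝ) ^ d') * (1 + Real.log L) ^ (d' + 1) * Y := by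
          rw [hlam, hB, pow_succ (1 + Real.log L)]; ring
      _ ≤ c * L * Y := mul_le_mul_of_nonneg_right h1 hY0.le
  -- the functions
  let f : ℕ → ℕ → (ℕ → ℕ) → ℝ := fun u x t =>
    ((if a k Q t x ≤ u then Rl k Q t e d' (u - a k Q t x) else 0 : ℕ) : ℝ)
  let G : (ℕ → ℕ) → Prop := fun t => ∀ v ≤ (L + 1) ^ k, (R k Q t d' n₀ v : ℝ) ≤ B
  let E0 : (ℕ → ℕ) → Prop := fun t => ∃ i ≤ d', ∃ n ≤ L + 1, ∃ u ≤ (L + 1) ^ k,
    Bd k C₁ i L < (R k Q t i n u : ℝ)
  let mu : ℕ → ℝ := fun u => c * (L * Y) * ((M k Q (d' + 1) u : ℝ) / (Q : ℝ) ^ d')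
  let E1 : ℕ → (ℕ → ℕ) → Prop := fun u t => G t ∧ ∑ x ∈ Ico n₀ (L + 1), f u x t < mu u / 2
  have hG : ∀ t : ℕ → ℕ, ¬ E0 t → G t := by
    intro t ht v hv
    simp only [E0] at ht
    push_neg at ht
    exact (ht d' le_rfl n₀ hn₀n v hv).trans (Bd_le hkd le_rfl (by linarith) hL1')
  have hE1 : ∀ u, L ^ k ≤ u → u < (L + 1) ^ k →
      pr (Tk k) (L + 1) (E1 u) ≤ Real.exp (-(mu u / (8 * B))) := by
    intro u hu1 hu2
    apply hCHL (Tk k) hT n₀ (L + 1) (f u) G B (mu u) hn₀n hB0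
    · intro x _ _ t
      exact Nat.cast_nonneg _
    · intro x hx _ t t' h hx'
      simp only [f]
      have h1 : a k Q t x = a k Q t' x := by unfold a; rw [hx']
      rw [h1, Rl_congr (fun y hy => h y (by omega))]
    · intro t t' h
      simp only [G]
      have h1 : ∀ v, R k Q t d' n₀ v = R k Q t' d' n₀ v := fun v => R_congr h _ _
      simp only [h1]
    · intro t ht hGt
      refine ⟨?_, ?_⟩
      · intro x _ _
        simp only [f]
        split_ifs with h
        · have h1 : Rl k Q t e d' (u - a k Q t x) ≤ R k Q t d' n₀ (u - a k Q t x) := Rl_le t hen _ _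
          have h2 := hGt (u - a k Q t x) ((Nat.sub_le _ _).trans hu2.le)
          have h3 : (Rl k Q t e d' (u - a k Q t x) : ℝ) ≤ R k Q t d' n₀ (u - a k Q t x) := by
            exact_mod_cast h1
          exact h3.trans h2
        · rw [Nat.cast_zero]
          exact hB0.le
      · have h1 := hLOWM L u hLL1 hu1 hu2 t ht
        rw [hX] at h1
        refine h1.trans (le_of_eq ?_)
        apply Finset.sum_congr rfl
        intro x hx
        rw [mem_Ico] at hx
        congr 1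
        apply Finset.sum_congr rfl
        intro v _
        simp only [f]
        have h2 : a k Q (Function.update t x v) x = x ^ k + Q * v := by
          unfold a
          rw [Function.update_self]
        rw [h2, Rl_congr (t := Function.update t x v) (t' := t)
          (fun y hy => Function.update_of_ne (by omega) _ _)]
        split_ifs
        · rfl
        · rw [Nat.cast_zero]
  have hsub : ∀ t : ℕ → ℕ, (∀ x, t x < Tk k x) →
      (∃ u, L ^ k ≤ u ∧ u < (L + 1) ^ k ∧ (R k Q t (d' + 1) (L + 1) u : ℝ) <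
        c / 2 * (L * Y) * ((M k Q (d' + 1) u : ℝ) / (Q : ℝ) ^ d')) →
      E0 t ∨ ∃ u ∈ (Ico (L ^ k) ((L + 1) ^ k)).filter (fun u => 0 < M k Q (d' + 1) u), E1 u t := by
    rintro t ht ⟨u, hu1, hu2, hu⟩
    by_cases h0 : E0 t
    · exact Or.inl h0
    · right
      have hMpos : 0 < M k Q (d' + 1) u := by
        by_contra hz
        have hz' : M k Q (d' + 1) u = 0 := by omega
        rw [hz', Nat.cast_zero, zero_div, mul_zero] at hu
        have : (0 : ℝ) ≤ R k Q t (d' + 1) (L + 1) u := Nat.cast_nonneg _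
        linarith
      refine ⟨u, mem_filter.mpr ⟨mem_Ico.mpr ⟨hu1, hu2⟩, hMpos⟩, hG t h0, ?_⟩
      have h1 : ∑ x ∈ Ico n₀ (L + 1), f u x t ≤ (R k Q t (d' + 1) (L + 1) u : ℝ) := by
        simp only [f]
        rw [← Nat.cast_sum]
        exact_mod_cast sum_Rl_le t hen hn₀n d' u
      refine lt_of_le_of_lt h1 (lt_of_lt_of_le hu (le_of_eq ?_))
      simp only [mu]
      ring
  have hcard : ∑ u ∈ (Ico (L ^ k) ((L + 1) ^ k)).filter (fun u => 0 < M k Q (d' + 1) u),
      pr (Tk k) (L + 1) (E1 u) ≤ ((L : ℝ) + 1) ^ k * Real.exp (-lam) := by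
    calc ∑ u ∈ (Ico (L ^ k) ((L + 1) ^ k)).filter (fun u => 0 < M k Q (d' + 1) u),
          pr (Tk k) (L + 1) (E1 u) ≤
          ∑ u ∈ (Ico (L ^ k) ((L + 1) ^ k)).filter (fun u => 0 < M k Q (d' + 1) u),
            Real.exp (-lam) := by
          apply Finset.sum_le_sum
          intro u hu
          rw [mem_filter, mem_Ico] at hu
          refine (hE1 u hu.1.1 hu.1.2).trans (Real.exp_le_exp.mpr (neg_le_neg ?_))
          refine hkey.trans ?_
          apply div_le_div_of_nonneg_right _ (by positivity)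
          simp only [mu]
          apply mul_le_mul_of_nonneg_left _ (by positivity)
          apply div_le_div_of_nonneg_right _ hQ0.le
          exact_mod_cast hu.2
      _ ≤ ∑ u ∈ Ico (L ^ k) ((L + 1) ^ k), Real.exp (-lam) :=
          Finset.sum_le_sum_of_subset_of_nonneg (Finset.filter_subset _ _)
            (fun _ _ _ => (Real.exp_pos _).le)
      _ = ((L + 1) ^ k - L ^ k : ℕ) * Real.exp (-lam) := by
          rw [Finset.sum_const, Nat.card_Ico, nsmul_eq_mul]
      _ ≤ _ := by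
          apply mul_le_mul_of_nonneg_right _ (Real.exp_pos _).le
          have : (L + 1) ^ k - L ^ k ≤ (L + 1) ^ k := Nat.sub_le _ _
          exact_mod_cast this
  calc pr (Tk k) (L + 1) _ ≤ pr (Tk k) (L + 1)
        (fun t => E0 t ∨ ∃ u ∈ (Ico (L ^ k) ((L + 1) ^ k)).filter
          (fun u => 0 < M k Q (d' + 1) u), E1 u t) := pr_mono hT _ hsub
    _ ≤ pr (Tk k) (L + 1) E0 +
        pr (Tk k) (L + 1) (fun t => ∃ u ∈ (Ico (L ^ k) ((L + 1) ^ k)).filter
          (fun u => 0 < M k Q (d' + 1) u), E1 u t) := pr_or hT _ _ _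
    _ ≤ C₁ / (L : ℝ) ^ 2 + ∑ u ∈ (Ico (L ^ k) ((L + 1) ^ k)).filter
          (fun u => 0 < M k Q (d' + 1) u), pr (Tk k) (L + 1) (E1 u) :=
        add_le_add (hBND L hL1') (pr_union hT _ _ _)
    _ ≤ C₁ / (L : ℝ) ^ 2 + 1 / (L : ℝ) ^ 2 :=
        add_le_add le_rfl (hcard.trans (expb k L hL1' lam hlam.ge))
    _ = (C₁ + 1) / (L : ℝ) ^ 2 := by rw [add_div]

end Pool.Agent.V5helper37.RS
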